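import Pool.Agent.H11.NZ.Targets

/-!
# MP_9b2842_al: a non-abelian chief factor gives commuting perfect subgroups of centralizers
-/

set_option autoImplicit false

open Equiv (Perm)

namespace Pool.Agent.H99.NZ.CMX

open Pool.Agent.H11.NZ Pool.Agent.H11.NY

section

variable {H I : Type} [Group H] [MulAction H I]

/-- the product of the conjugates -/
def P (g : H) : ℕ → H → H
  | 0, _ => 1
  | n + 1, x => P g n x * (g ^ n * x * (g ^ n)⁻¹)

theorem P_comm (T : I → Subgroup H)
    (hcomm : ∀ i j, i ≠ j → ∀ x ∈ T i, ∀ y ∈ T j, x * y = y * x)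
    (hconj : ∀ (y : H) (i : I), ∀ x ∈ T i, y * x * y⁻¹ ∈ T (y • i)) (g : H) (i : I) (x : H)
    (hx : x ∈ T i) (n : ℕ) (y : H)
    (hy : ∀ k < n, ∀ z ∈ T (g ^ k • i), y * z = z * y) : y * P g n x = P g n x * y := by
  induction n with
  | zero => simp [P]
  | succ n ih =>
    have h1 := ih (fun k hk => hy k (Nat.lt_succ_of_lt hk))
    have h2 := hy n (Nat.lt_succ_self n) _ (hconj (g ^ n) i x hx)
    change y * (P g n x * (g ^ n * x * (g ^ n)⁻¹)) = P g n x * (g ^ n * x * (g ^ n)⁻¹) * y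
    generalize g ^ n * x * (g ^ n)⁻¹ = w at h2 ⊢
    generalize P g n x = u at h1 ⊢
    rw [← mul_assoc, h1, mul_assoc, h2, mul_assoc]

theorem P_mul (T : I → Subgroup H)
    (hcomm : ∀ i j, i ≠ j → ∀ x ∈ T i, ∀ y ∈ T j, x * y = y * x)
    (hconj : ∀ (y : H) (i : I), ∀ x ∈ T i, y * x * y⁻¹ ∈ T (y • i)) (g : H) (i : I) (x y : H)
    (hx : x ∈ T i) (hy : y ∈ T i) (n : ℕ)
    (hd : ∀ k k' : ℕ, k < k' → k' < n → g ^ k' • i ≠ g ^ k • i) :
    P g n (x * y) = P g n x * P g n y := by
  induction n with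
  | zero => simp [P]
  | succ n ih =>
    have h1 := ih (fun k k' h h' => hd k k' h (Nat.lt_succ_of_lt h'))
    have h2 : (g ^ n * x * (g ^ n)⁻¹) * P g n y = P g n y * (g ^ n * x * (g ^ n)⁻¹) :=
      P_comm T hcomm hconj g i y hy n _ (fun k hk z hz =>
        hcomm _ _ (hd k n hk (Nat.lt_succ_self n)) _ (hconj (g ^ n) i x hx) z hz)
    rw [P, P, P, h1]
    calc P g n x * P g n y * (g ^ n * (x * y) * (g ^ n)⁻¹)
        = P g n x * (P g n y * (g ^ n * x * (g ^ n)⁻¹)) * (g ^ n * y * (g ^ n)⁻¹) := by group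
      _ = P g n x * ((g ^ n * x * (g ^ n)⁻¹) * P g n y) * (g ^ n * y * (g ^ n)⁻¹) := by rw [h2]
      _ = P g n x * (g ^ n * x * (g ^ n)⁻¹) * (P g n y * (g ^ n * y * (g ^ n)⁻¹)) := by group

theorem P_shift (g x : H) (n : ℕ) : P g (n + 1) x = x * (g * P g n x * g⁻¹) := by
  induction n with
  | zero => simp [P]
  | succ n ih =>
    have e1 : P g (n + 1 + 1) x = P g (n + 1) x * (g ^ (n + 1) * x * (g ^ (n + 1))⁻¹) := rfl
    have e2 : P g (n + 1) x = P g n x * (g ^ n * x * (g ^ n)⁻¹) := rfl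
    calc P g (n + 1 + 1) x = x * (g * P g n x * g⁻¹) * (g ^ (n + 1) * x * (g ^ (n + 1))⁻¹) := by
          rw [e1, ih]
      _ = x * (g * (P g n x * (g ^ n * x * (g ^ n)⁻¹)) * g⁻¹) := by
          rw [pow_succ' g n]; group
      _ = x * (g * P g (n + 1) x * g⁻¹) := by rw [← e2]

theorem P_g (T : I → Subgroup H)
    (hcomm : ∀ i j, i ≠ j → ∀ x ∈ T i, ∀ y ∈ T j, x * y = y * x)
    (hconj : ∀ (y : H) (i : I), ∀ x ∈ T i, y * x * y⁻¹ ∈ T (y • i)) (g : H) (i : I) (x : H)
    (hx : x ∈ T i) (n : ℕ) (hg : g ^ (n + 1) = 1)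
    (hd : ∀ k : ℕ, 0 < k → k < n + 1 → g ^ k • i ≠ i) :
    g * P g (n + 1) x * g⁻¹ = P g (n + 1) x := by
  have h1 : x * (g * P g n x * g⁻¹) = (g * P g n x * g⁻¹) * x := by
    have h2 : (g⁻¹ * x * g) * P g n x = P g n x * (g⁻¹ * x * g) := by
      refine P_comm T hcomm hconj g i x hx n _ (fun k hk z hz => ?_)
      have h3 : g⁻¹ * x * g ∈ T (g⁻¹ • i) := by
        have := hconj g⁻¹ i x hx
        simpa using this
      refine hcomm _ _ ?_ _ h3 z hz
      intro h4
      apply hd (k + 1) (Nat.succ_pos k) (by omega)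
      rw [pow_succ', mul_smul, ← h4, smul_inv_smul]
    calc x * (g * P g n x * g⁻¹) = g * ((g⁻¹ * x * g) * P g n x) * g⁻¹ := by group
      _ = g * (P g n x * (g⁻¹ * x * g)) * g⁻¹ := by rw [h2]
      _ = (g * P g n x * g⁻¹) * x := by group
  have h5 : g * (g ^ n * x * (g ^ n)⁻¹) * g⁻¹ = x := by
    calc g * (g ^ n * x * (g ^ n)⁻¹) * g⁻¹ = (g * g ^ n) * x * (g * g ^ n)⁻¹ := by group
      _ = x := by rw [← pow_succ', hg]; group
  calc g * P g (n + 1) x * g⁻¹ = (g * P g n x * g⁻¹) * (g * (g ^ n * x * (g ^ n)⁻¹) * g⁻¹) := by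
        rw [P]; group
    _ = (g * P g n x * g⁻¹) * x := by rw [h5]
    _ = x * (g * P g n x * g⁻¹) := h1.symm
    _ = P g (n + 1) x := (P_shift g x n).symm

/-- indices in different orbits -/
theorem choose_orbits (g : H) (ℓ : ℕ) (hℓ : 0 < ℓ) (hg : g ^ ℓ = 1) [DecidableEq I]
    (N : Finset I) (c : ℕ) (hN : ℓ * c ≤ N.card) :
    ∃ f : Fin c → I, (∀ r, f r ∈ N) ∧ ∀ r r' : Fin c, r < r' → ∀ k : ℕ, f r' ≠ g ^ k • f r := by
  induction c with
  | zero => exact ⟨Fin.elim0, fun r => r.elim0, fun r => r.elim0⟩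
  | succ c ih =>
    obtain ⟨f, hf1, hf2⟩ := ih (le_trans (Nat.mul_le_mul_left _ (Nat.le_succ c)) hN)
    have h1 : ((Finset.univ : Finset (Fin c)).biUnion fun r =>
        (Finset.range ℓ).image fun k => g ^ k • f r).card < N.card := by
      refine lt_of_le_of_lt Finset.card_biUnion_le ?_
      refine lt_of_le_of_lt (Finset.sum_le_card_nsmul _ _ ℓ (fun r _ => ?_)) ?_
      · exact Finset.card_image_le.trans (by rw [Finset.card_range])
      · rw [Finset.card_univ, Fintype.card_fin, smul_eq_mul]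
        have : ℓ * (c + 1) = c * ℓ + ℓ := by ring
        omega
    obtain ⟨i, hi, hi'⟩ := Finset.exists_mem_notMem_of_card_lt_card h1
    refine ⟨Fin.snoc f i, ?_, ?_⟩
    · intro r
      refine Fin.lastCases ?_ (fun r => ?_) r
      · rw [Fin.snoc_last]; exact hi
      · rw [Fin.snoc_castSucc]; exact hf1 r
    · intro r r' hr k
      revert hr
      refine Fin.lastCases ?_ (fun r' => ?_) r'
      · intro hr
        obtain ⟨r0, rfl⟩ := Fin.exists_castSucc_eq.2 (ne_of_lt hr)
        rw [Fin.snoc_last, Fin.snoc_castSucc]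
        intro h
        apply hi'
        rw [Finset.mem_biUnion]
        refine ⟨r0, Finset.mem_univ _, Finset.mem_image.2 ⟨k % ℓ, Finset.mem_range.2
          (Nat.mod_lt _ hℓ), ?_⟩⟩
        rw [h]
        congr 1
        conv_rhs => rw [← Nat.mod_add_div k ℓ, pow_add, pow_mul, hg, one_pow, mul_one]
      · intro hr
        have hr1 : r ≠ Fin.last c := by
          intro h
          rw [h] at hr
          exact absurd hr (not_lt.2 (Fin.le_last _))
        obtain ⟨r0, rfl⟩ := Fin.exists_castSucc_eq.2 hr1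
        rw [Fin.snoc_castSucc, Fin.snoc_castSucc]
        exact hf2 r0 r' (by simpa using hr) k

end

/-- commuting modulo a central subgroup is commuting, for perfect subgroups -/
theorem comm_of_mod {H : Type} [Group H] (J B₁ A : Subgroup H)
    (hc : ∀ x ∈ B₁, ∀ y ∈ J, x * y = y * x) (hBJ : B₁ ≤ J) (hA : A ≤ J) (hp : ⁅A, A⁆ = A) (y : H)
    (hy : y ∈ J) (h : ∀ x ∈ A, x * y * x⁻¹ * y⁻¹ ∈ B₁) : ∀ x ∈ A, x * y = y * x := by
  have h1 : ⁅A, A⁆ ≤ Subgroup.centralizer ({y} : Set H) := by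
    rw [Subgroup.commutator_le]
    intro a ha b hb
    rw [Subgroup.mem_centralizer_singleton_iff, commutatorElement_def]
    have za := h a ha
    have zb := h b hb
    set z : H := a * y * a⁻¹ * y⁻¹ with hz
    set w : H := b * y * b⁻¹ * y⁻¹ with hw
    have e1 : a * y = z * y * a := by rw [hz]; group
    have e2 : b * y = w * y * b := by rw [hw]; group
    have e3 : z * a = a * z := hc z za a (hA ha)
    have e4 : w * a = a * w := hc w zb a (hA ha)
    have e5 : z * b = b * z := hc z za b (hA hb)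
    have e6 : w * b = b * w := hc w zb b (hA hb)
    have e7 : z * w = w * z := hc z za w (hBJ zb)
    have e8 : z * y = y * z := hc z za y hy
    have e9 : w * y = y * w := hc w zb y hy
    -- a b y = z w y a b
    have f1 : a * b * y = z * w * y * (a * b) := by
      calc a * b * y = a * (b * y) := by group
        _ = a * (w * y * b) := by rw [e2]
        _ = (a * w) * y * b := by group
        _ = (w * a) * y * b := by rw [e4]
        _ = w * (a * y) * b := by group
        _ = w * (z * y * a) * b := by rw [e1]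
        _ = (w * z) * y * (a * b) := by group
        _ = (z * w) * y * (a * b) := by rw [e7]
    have f2 : b * a * y = z * w * y * (b * a) := by
      calc b * a * y = b * (a * y) := by group
        _ = b * (z * y * a) := by rw [e1]
        _ = (b * z) * y * a := by group
        _ = (z * b) * y * a := by rw [e5]
        _ = z * (b * y) * a := by group
        _ = z * (w * y * b) * a := by rw [e2]
        _ = z * w * y * (b * a) := by group
    -- y (b a)⁻¹ = (b a)⁻¹ z w y
    have f3 : y * (b * a)⁻¹ = (b * a)⁻¹ * (z * w * y) := by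
      calc y * (b * a)⁻¹ = (b * a)⁻¹ * (b * a * y) * (b * a)⁻¹ := by group
        _ = (b * a)⁻¹ * (z * w * y * (b * a)) * (b * a)⁻¹ := by rw [f2]
        _ = (b * a)⁻¹ * (z * w * y) := by group
    -- z w commutes with b a and y
    have f4 : (z * w) * (b * a) = (b * a) * (z * w) := by
      calc (z * w) * (b * a) = z * (w * b) * a := by group
        _ = z * (b * w) * a := by rw [e6]
        _ = (z * b) * (w * a) := by group
        _ = (b * z) * (a * w) := by rw [e5, e4]
        _ = b * (z * a) * w := by group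
        _ = b * (a * z) * w := by rw [e3]
        _ = (b * a) * (z * w) := by group
    have f5 : (b * a)⁻¹ * (z * w) = (z * w) * (b * a)⁻¹ := by
      calc (b * a)⁻¹ * (z * w) = (b * a)⁻¹ * ((z * w) * (b * a)) * (b * a)⁻¹ := by group
        _ = (b * a)⁻¹ * ((b * a) * (z * w)) * (b * a)⁻¹ := by rw [f4]
        _ = (z * w) * (b * a)⁻¹ := by group
    have f6 : (b * a)⁻¹ * y = (z * w)⁻¹ * (y * (b * a)⁻¹) := by
      rw [f3]
      calc (b * a)⁻¹ * y = (z * w)⁻¹ * ((z * w) * (b * a)⁻¹) * y := by group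
        _ = (z * w)⁻¹ * ((b * a)⁻¹ * (z * w)) * y := by rw [f5]
        _ = (z * w)⁻¹ * ((b * a)⁻¹ * (z * w * y)) := by group
    have g1 : a * b * a⁻¹ * b⁻¹ = (a * b) * (b * a)⁻¹ := by group
    rw [g1]
    have g2 : (a * b) * (z * w)⁻¹ = (z * w)⁻¹ * (a * b) := by
      have : (z * w) * (a * b) = (a * b) * (z * w) := by
        calc (z * w) * (a * b) = z * (w * a) * b := by group
          _ = z * (a * w) * b := by rw [e4]
          _ = (z * a) * (w * b) := by group
          _ = (a * z) * (b * w) := by rw [e3, e6]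
          _ = a * (z * b) * w := by group
          _ = a * (b * z) * w := by rw [e5]
          _ = (a * b) * (z * w) := by group
      calc (a * b) * (z * w)⁻¹ = (z * w)⁻¹ * ((z * w) * (a * b)) * (z * w)⁻¹ := by group
        _ = (z * w)⁻¹ * ((a * b) * (z * w)) * (z * w)⁻¹ := by rw [this]
        _ = (z * w)⁻¹ * (a * b) := by group
    calc (a * b) * (b * a)⁻¹ * y = (a * b) * ((b * a)⁻¹ * y) := by group
      _ = (a * b) * ((z * w)⁻¹ * (y * (b * a)⁻¹)) := by rw [f6]
      _ = ((a * b) * (z * w)⁻¹) * (y * (b * a)⁻¹) := by group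
      _ = ((z * w)⁻¹ * (a * b)) * (y * (b * a)⁻¹) := by rw [g2]
      _ = (z * w)⁻¹ * (a * b * y) * (b * a)⁻¹ := by group
      _ = (z * w)⁻¹ * (z * w * y * (a * b)) * (b * a)⁻¹ := by rw [f1]
      _ = y * ((a * b) * (b * a)⁻¹) := by group
  intro x hx
  rw [← hp] at hx
  exact Subgroup.mem_centralizer_singleton_iff.1 (h1 hx)

theorem pf_cmx : T_RS → T_XNT → T_MV → T_CM1 → T_CMX := by
  intro hRS hXNT hMV hCM1 c ℓ
  obtain ⟨B0, hB0⟩ := hMV (ℓ * c)
  refine ⟨max B0 6, ?_⟩
  have l1 : B0 ≤ max B0 6 := le_max_left _ _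
  have l2 : 6 ≤ max B0 6 := le_max_right _ _
  generalize max B0 6 = B at l1 l2
  intro H Ω _ _ _ _ ψ X hX hSch J B₁ hJ hB₁ hlt hJX hJJ hcen hmin hℓ g hg hB S hS hSs
  have h5 : 5 ≤ Fintype.card Ω := by
    have : (ψ g : Perm Ω).support.card ≤ Fintype.card Ω := Finset.card_le_univ _
    omega
  obtain ⟨I, _, _, _, T, hT⟩ := hRS H J B₁ hJ hB₁ hlt hJJ hmin
  have hBker : B₁ ≤ ψ.ker := fun x hx => (hJX (hlt.le hx)).1
  obtain ⟨x, hx, i, hxi⟩ := hXNT H Ω I ψ X h5 hX hSch J B₁ T hJX hB₁ hBker hT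
  obtain ⟨-, hpre, hTJ, hTp, hTB, -, hTc, hTconj, -⟩ := hT
  have hmv := hB0 H Ω I ψ X hX hpre ⟨x, hx, i, hxi⟩ g (l1.trans hB)
  obtain ⟨f, hf1, hf2⟩ := choose_orbits g ℓ hℓ.pos hg _ c hmv
  -- the subgroups `T i` commute
  have hcomm : ∀ i j, i ≠ j → ∀ x ∈ T i, ∀ y ∈ T j, x * y = y * x := by
    intro i j hij x hx y hy
    exact comm_of_mod J B₁ (T i) hcen hlt.le (hTJ i) (hTp i) y (hTJ j hy)
      (fun x hx => hTc i j hij x hx y hy) x hx
  obtain ⟨m, rfl⟩ : ∃ m, ℓ = m + 1 := ⟨ℓ - 1, by have := hℓ.pos; omega⟩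
  -- the orbits have length `ℓ`
  have horb : ∀ r : Fin c, ∀ k : ℕ, 0 < k → k < m + 1 → g ^ k • f r ≠ f r := by
    intro r k hk hk' h
    have h1 : g • f r ≠ f r := by simpa using hf1 r
    have hcop : Nat.Coprime (m + 1) k := Nat.coprime_of_lt_prime hk.ne' hk' hℓ
    apply h1
    have h2 : g ^ k ∈ MulAction.stabilizer H (f r) := h
    have h3 : g ∈ MulAction.stabilizer H (f r) := by
      have h4 := Nat.gcd_eq_gcd_ab (m + 1) k
      rw [hcop.gcd_eq_one] at h4
      have h5 : g = (g ^ (m + 1)) ^ (Nat.gcdA (m + 1) k) * (g ^ k) ^ (Nat.gcdB (m + 1) k) := by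
        rw [← zpow_natCast g (m + 1), ← zpow_natCast g k, ← zpow_mul, ← zpow_mul, ← zpow_add,
          ← h4]
        simp
      rw [h5, hg, one_zpow, one_mul]
      exact Subgroup.zpow_mem _ h2 _
    exact h3
  have hinj : ∀ r : Fin c, ∀ k k' : ℕ, k < k' → k' < m + 1 → g ^ k' • f r ≠ g ^ k • f r := by
    intro r k k' hk hk' h
    apply horb r (k' - k) (by omega) (by omega)
    have h1 : g ^ k' = g ^ k * g ^ (k' - k) := by rw [← pow_add]; congr 1; omega
    rw [h1, mul_smul] at h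
    exact smul_left_cancel _ h
  -- different orbits
  have hdiff : ∀ r r' : Fin c, r ≠ r' → ∀ k k' : ℕ, g ^ k • f r ≠ g ^ k' • f r' := by
    have key : ∀ r r' : Fin c, r < r' → ∀ k k' : ℕ, g ^ k • f r ≠ g ^ k' • f r' := by
      intro r r' hr k k' h
      apply hf2 r r' hr (k + k' * m)
      have h1 : g ^ (k' * m) • (g ^ k • f r) = g ^ (k' * m) • (g ^ k' • f r') := by rw [h]
      have h2 : g ^ (k' * m) * g ^ k' = 1 := by
        rw [← pow_add, show k' * m + k' = (m + 1) * k' by ring, pow_mul, hg, one_pow]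
      rw [← mul_smul, ← mul_smul, h2, one_smul, ← pow_add] at h1
      rw [← h1, add_comm]
    intro r r' hr k k' h
    rcases lt_or_gt_of_ne hr with h1 | h1
    · exact key r r' h1 k k' h
    · exact key r' r h1 k' k h.symm
  -- the homomorphisms
  let C : Subgroup H := Subgroup.centralizer ({g} : Set H)
  have hPC : ∀ r : Fin c, ∀ x ∈ T (f r), P g (m + 1) x ∈ C := by
    intro r x hx
    rw [Subgroup.mem_centralizer_singleton_iff]
    have h1 := P_g T hcomm hTconj g (f r) x hx m hg (horb r)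
    calc P g (m + 1) x * g = (g * P g (m + 1) x * g⁻¹) * g := by rw [h1]
      _ = g * P g (m + 1) x := by group
  let s : ∀ r : Fin c, T (f r) →* C := fun r =>
    { toFun := fun x => ⟨P g (m + 1) x, hPC r x x.2⟩
      map_one' := by
        apply Subtype.ext
        change P g (m + 1) ((1 : T (f r)) : H) = 1
        have h1 := P_mul T hcomm hTconj g (f r) 1 1 (T (f r)).one_mem (T (f r)).one_mem (m + 1)
          (hinj r)
        rw [mul_one] at h1
        exact left_eq_mul.1 h1
      map_mul' := by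
        intro x y
        apply Subtype.ext
        exact P_mul T hcomm hTconj g (f r) x y x.2 y.2 (m + 1) (hinj r) }
  have hs : ∀ (r : Fin c) (x : T (f r)), ((s r x : C) : H) = P g (m + 1) (x : H) :=
    fun r x => rfl
  have hperf : ∀ r : Fin c, ⁅(s r).range, (s r).range⁆ = (s r).range := by
    intro r
    have h1 : ⁅(⊤ : Subgroup (T (f r))), (⊤ : Subgroup (T (f r)))⁆ = ⊤ := by
      apply Subgroup.map_injective (T (f r)).subtype_injective
      rw [Subgroup.map_commutator, ← MonoidHom.range_eq_map, Subgroup.range_subtype]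
      exact hTp (f r)
    rw [MonoidHom.range_eq_map, ← Subgroup.map_commutator, h1]
  have hne : ∀ r : Fin c, (s r).range ≠ ⊥ := by
    intro r hr
    have h1 : ∀ x ∈ T (f r), P g (m + 1) x = 1 := by
      intro x hx
      have h2 : s r ⟨x, hx⟩ ∈ (s r).range := ⟨_, rfl⟩
      rw [hr, Subgroup.mem_bot] at h2
      have h3 := congrArg (fun z : C => (z : H)) h2
      exact h3
    have h2 : ∀ x ∈ T (f r), ∀ y ∈ T (f r), x * y = y * x := by
      intro x hx y hy
      have h3 := h1 x hx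
      rw [P_shift] at h3
      have h4 : x = (g * P g m x * g⁻¹)⁻¹ := eq_inv_of_mul_eq_one_left h3
      have h5 : y * (g * P g m x * g⁻¹) = (g * P g m x * g⁻¹) * y := by
        have h6 : (g⁻¹ * y * g) * P g m x = P g m x * (g⁻¹ * y * g) := by
          refine P_comm T hcomm hTconj g (f r) x hx m _ (fun k hk z hz => ?_)
          have h7 : g⁻¹ * y * g ∈ T (g⁻¹ • f r) := by
            have := hTconj g⁻¹ (f r) y hy
            simpa using this
          refine hcomm _ _ ?_ _ h7 z hz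
          intro h8
          apply horb r (k + 1) (Nat.succ_pos k) (by omega)
          rw [pow_succ', mul_smul, ← h8, smul_inv_smul]
        calc y * (g * P g m x * g⁻¹) = g * ((g⁻¹ * y * g) * P g m x) * g⁻¹ := by group
          _ = g * (P g m x * (g⁻¹ * y * g)) * g⁻¹ := by rw [h6]
          _ = (g * P g m x * g⁻¹) * y := by group
      generalize g * P g m x * g⁻¹ = u at h4 h5
      rw [h4]
      calc u⁻¹ * y = u⁻¹ * (y * u) * u⁻¹ := by group
        _ = u⁻¹ * (u * y) * u⁻¹ := by rw [h5]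
        _ = y * u⁻¹ := by group
    apply hTB (f r)
    have h3 : ⁅T (f r), T (f r)⁆ ≤ B₁ := by
      rw [Subgroup.commutator_le]
      intro a ha b hb
      rw [commutatorElement_def, h2 a ha b hb]
      have : b * a * a⁻¹ * b⁻¹ = 1 := by group
      rw [this]
      exact B₁.one_mem
    rw [hTp] at h3
    exact h3
  have hcc : ∀ r r' : Fin c, r ≠ r' → ∀ x ∈ (s r).range, ∀ y ∈ (s r').range, x * y = y * x := by
    rintro r r' hr _ ⟨x, rfl⟩ _ ⟨y, rfl⟩
    apply Subtype.ext
    rw [Subgroup.coe_mul, Subgroup.coe_mul, hs, hs]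
    refine P_comm T hcomm hTconj g (f r') y y.2 (m + 1) _ (fun k _ z hz => ?_)
    refine (P_comm T hcomm hTconj g (f r) x x.2 (m + 1) z (fun k' _ w hw => ?_)).symm
    exact hcomm _ _ (hdiff r r' hr k' k).symm z hz w hw
  have hfin := hCM1 C S hS hSs c (fun r => (s r).range) hperf hne hcc
  exact (Nat.lt_two_pow_self).le.trans hfin

end Pool.Agent.H99.NZ.CMX
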