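import Pool.Agent.H11.NZ.Targets

/-!
# MP_9b2842_al: irreducible representations are local
-/

set_option autoImplicit false

open Equiv (Perm)

namespace Pool.Agent.H99.NZ.P2X

open Pool.Agent.H11.NZ Pool.Agent.H11.NY

theorem hpair_mono {L Ω : Type} [Group L] [Fintype Ω] [DecidableEq Ω]
    {ψ : L →* alternatingGroup Ω} {e B B' q p : ℕ} {a h : L} (hB : B' ≤ B)
    (H : HPair ψ e B q p a h) : HPair ψ e B' q p a h := by
  obtain ⟨h1, h2, h3, h4, h5, h6, h7, h8, h9, h10, h11⟩ := H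
  exact ⟨h1, h2, h3, h4, h5, h6, h7, h8, h9, h10, fun i j hij => hB.trans (h11 i j hij)⟩

theorem lp_mono {L Ω K V : Type} [Group L] [Fintype Ω] [DecidableEq Ω] [Field K]
    [AddCommGroup V] [Module K V] {ψ : L →* alternatingGroup Ω} {ρ : L →* Module.End K V}
    {e B B' q : ℕ} {a : L} (hB : B' ≤ B) (H : LP ψ ρ e B q a) : LP ψ ρ e B' q a := by
  obtain ⟨h1, h2, h3, h4, h5, h6, h7, h8⟩ := H
  refine ⟨h1, h2, h3, h4, h5, fun j hj => hB.trans (h6 j hj), h7, ?_⟩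
  rcases h8 with h8 | ⟨p, h, hp, hp', hr⟩
  · exact Or.inl h8
  · exact Or.inr ⟨p, h, hpair_mono hB hp, hp', hr⟩

theorem card_le {L Ω : Type} [Group L] [Fintype Ω] [DecidableEq Ω]
    {ψ : L →* alternatingGroup Ω} {e B q p : ℕ} {a h : L}
    (H : HPair ψ e B q p a h) : B ≤ Fintype.card Ω := by
  obtain ⟨h1, h2, h3, h4, h5, h6, h7, h8, h9, h10, h11⟩ := H
  refine (h11 1 0 (by simpa using h9)).trans ?_
  exact Finset.card_le_univ _

theorem sch_sub {L Ω : Type} [Group L] [Fintype Ω] [DecidableEq Ω]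
    (ψ : L →* alternatingGroup Ω) (X H : Subgroup L) (hS : Sch (ψ.ker ⊓ X)) :
    Sch ((ψ.comp H.subtype).ker ⊓ X.subgroupOf H) := by
  intro T _ hT A f hA hf
  have e := A.equivMapOfInjective H.subtype (Subtype.coe_injective)
  refine hS T hT (A.map H.subtype) (f.comp e.symm.toMonoidHom) ?_ ?_
  · rintro x ⟨y, hy, rfl⟩
    have h1 := hA hy
    rw [Subgroup.mem_inf] at h1 ⊢
    exact ⟨h1.1, h1.2⟩
  · exact hf.comp e.symm.surjective

theorem pf_p2x : T_XS → T_DC → T_CAX → T_QPA → T_QPB → T_AIX → T_LPX → T_LOC → T_P2X := by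
  intro hXS hDC hCAX hQPA hQPB hAIX hLPX hLOC e
  obtain ⟨B1, hB1⟩ := hCAX e
  obtain ⟨B2, hB2⟩ := hLOC e
  refine ⟨max B1 (max B2 6), ?_⟩
  have l1 : B1 ≤ max B1 (max B2 6) := le_max_left _ _
  have l2 : B2 ≤ max B1 (max B2 6) := (le_max_left _ _).trans (le_max_right _ _)
  have l3 : 6 ≤ max B1 (max B2 6) := (le_max_right _ _).trans (le_max_right _ _)
  generalize max B1 (max B2 6) = B at l1 l2 l3
  intro L Ω _ _ _ _ ψ X hX hSch K V _ _ _ _ _ ρ hIrr hP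
  have h5 : 5 ≤ Fintype.card Ω := by
    obtain ⟨q, p, a, h, -, H, -⟩ := hP 2 Nat.prime_two
    have := card_le H
    omega
  obtain ⟨Λ, _, _, _, W, x₀, ρ', hSys, hρ', hIrr', hNo⟩ := hQPA L K V ρ hIrr
  by_cases hXΛ : ∃ x ∈ X, ∃ i : Λ, x • i ≠ i
  · refine hB1 L Ω Λ ψ X hX hSch K V ρ W hSys hXΛ ?_
    intro r hr
    obtain ⟨q, p, a, h, hqr, H, -, -, hR⟩ := hP r hr
    exact ⟨q, p, a, h, hqr, hpair_mono l1 H, hR⟩
  push Not at hXΛ
  by_cases hXV : ∀ x ∈ X, ∀ v : V, ρ x v = v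
  · intro v Δ Δ' _ _ _ D D' hD hD' d hd d' hd'
    rw [hXV d' (hD'.1.1 hd') v, hXV d (hD.1.1 hd) v]
    abel
  -- the stabiliser
  have hXL : X ≤ MulAction.stabilizer L x₀ := fun x hx =>
    MulAction.mem_stabilizer_iff.2 (hXΛ x hx x₀)
  obtain ⟨hX', hD'⟩ := hXS L Ω ψ X (MulAction.stabilizer L x₀) hXL hX
  have hLP : ∀ r : ℕ, r.Prime → ∃ (q : ℕ) (a : MulAction.stabilizer L x₀), q ≠ r ∧
      LP (ψ.comp (MulAction.stabilizer L x₀).subtype) ρ' e B2 q a := by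
    intro r hr
    obtain ⟨q, p, a, h, hqr, H, hq, hp, hR⟩ := hP r hr
    have ha : a ∈ MulAction.stabilizer L x₀ := by
      rcases hAIX L Ω Λ ψ X h5 hX K V ρ W hSys hXΛ e q p a h
        (hpair_mono (by omega) H) hR with h1 | h1
      · exact MulAction.mem_stabilizer_iff.2 (h1 x₀)
      · exact absurd h1 hXV
    exact ⟨q, ⟨a, ha⟩, hqr, lp_mono l2 (hLPX L Ω Λ ψ K V ρ W hSys x₀ ρ' hρ' e B q p a h
      (by omega) H hq hp hR ha)⟩
  have hF : ∀ M : Subgroup (MulAction.stabilizer L x₀), M.Normal →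
      M ≤ X.subgroupOf (MulAction.stabilizer L x₀) → Faith ρ' M := by
    intro M hM _
    exact hQPB (MulAction.stabilizer L x₀) K (W x₀) ρ' hIrr' hNo M hM
  obtain ⟨v', hv', hloc⟩ := hB2 (MulAction.stabilizer L x₀) Ω
    (ψ.comp (MulAction.stabilizer L x₀).subtype) (X.subgroupOf (MulAction.stabilizer L x₀)) hX'
    (sch_sub ψ X _ hSch) K (W x₀) ρ' hIrr'.1 hF hLP
  -- `v'` is local in `V`
  have hv1 : LocAt ψ X e ρ (v' : V) := by
    intro Δ Δ' hdis hΔ hΔ' D D' hD hD1 d hd d' hd'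
    have k1 : d ∈ MulAction.stabilizer L x₀ := hXL (hD.1.1 hd)
    have k2 : d' ∈ MulAction.stabilizer L x₀ := hXL (hD1.1.1 hd')
    have := hloc Δ Δ' hdis hΔ hΔ' _ _ (hD' Δ D hD) (hD' Δ' D' hD1) ⟨d, k1⟩ hd ⟨d', k2⟩ hd'
    have h1 := congrArg (Subtype.val) this
    simpa [hρ'] using h1
  -- the subspace
  let U : Submodule K V :=
    { carrier := {v | LocAt ψ X e ρ v}
      add_mem' := by
        intro v w hv hw Δ Δ' hdis hΔ hΔ' D D' hD hD' d hd d' hd'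
        have h1 := hv Δ Δ' hdis hΔ hΔ' D D' hD hD' d hd d' hd'
        have h2 := hw Δ Δ' hdis hΔ hΔ' D D' hD hD' d hd d' hd'
        have h3 : ρ d (ρ d' (v + w)) - ρ d (v + w) - ρ d' (v + w) + (v + w) =
            (ρ d (ρ d' v) - ρ d v - ρ d' v + v) + (ρ d (ρ d' w) - ρ d w - ρ d' w + w) := by
          simp only [map_add]
          abel
        rw [h3, h1, h2, add_zero]
      zero_mem' := by
        intro Δ Δ' hdis hΔ hΔ' D D' hD hD' d hd d' hd'
        simp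
      smul_mem' := by
        intro c v hv Δ Δ' hdis hΔ hΔ' D D' hD hD' d hd d' hd'
        have h1 := hv Δ Δ' hdis hΔ hΔ' D D' hD hD' d hd d' hd'
        have h3 : ρ d (ρ d' (c • v)) - ρ d (c • v) - ρ d' (c • v) + (c • v) =
            c • (ρ d (ρ d' v) - ρ d v - ρ d' v + v) := by
          simp only [map_smul, smul_sub, smul_add]
        rw [h3, h1, smul_zero] }
  have hU : ∀ y : L, ∀ w ∈ U, ρ y w ∈ U := by
    intro y w hw Δ Δ' hdis hΔ hΔ' D D' hD hD' d hd d' hd'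
    have i1 : Function.Injective fun ω : Ω => (ψ y⁻¹ : Perm Ω) ω := (ψ y⁻¹ : Perm Ω).injective
    have c1 := hDC L Ω ψ X hX.1 Δ D hD y⁻¹
    have c2 := hDC L Ω ψ X hX.1 Δ' D' hD' y⁻¹
    have hw' : LocAt ψ X e ρ w := hw
    have h1 := hw' _ _ ((Finset.disjoint_image i1).2 hdis)
      (by rw [Finset.card_image_of_injective _ i1]; exact hΔ)
      (by rw [Finset.card_image_of_injective _ i1]; exact hΔ') _ _ c1 c2
      (y⁻¹ * d * y) ⟨d, hd, by simp⟩ (y⁻¹ * d' * y) ⟨d', hd', by simp⟩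
    have e1 : ∀ (g : L) (u : V), ρ y (ρ (y⁻¹ * g * y) u) = ρ g (ρ y u) := by
      intro g u
      rw [← Module.End.mul_apply, ← map_mul, ← Module.End.mul_apply, ← map_mul]
      congr 2
      group
    have h2 := congrArg (ρ y) h1
    rw [map_add, map_sub, map_sub, map_zero, e1, e1, e1] at h2
    exact h2
  rcases hIrr.2 U hU with h | h
  · exfalso
    have : (v' : V) ∈ U := hv1
    rw [h, Submodule.mem_bot] at this
    exact hv' (Subtype.ext this)
  · intro v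
    have : v ∈ U := by rw [h]; trivial
    exact this

end Pool.Agent.H99.NZ.P2X
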